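import Pool.Agent.N964.GV.Stm

/-!
# Project GV (helper964), part A: variance and small primes
-/

set_option autoImplicit false

namespace Pool.Agent.N279.GV

open Complex MeasureTheory Filter
open Pool.Agent.N964.MX (Dd Pl cc)
open Pool.Agent.N964.GX (PA al)
open Pool.Agent.N964.GV

theorem ineq_a {x s : ℝ} (hx : 0 < x) (hs : 0 < s) :
    (x + 1) ^ (-1 - s) ≤ 1 / s * (x ^ (-s) - (x + 1) ^ (-s)) := by
  have hx1 : 0 < x + 1 := by linarith
  have h1 : x ^ (-s) = (x + 1) ^ (-s) * Real.exp (s * (Real.log (x + 1) - Real.log x)) := by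
    rw [Real.rpow_def_of_pos hx, Real.rpow_def_of_pos hx1, ← Real.exp_add]
    congr 1
    ring
  have h2 : 1 / (x + 1) ≤ Real.log (x + 1) - Real.log x := by
    have h3 := Real.log_le_sub_one_of_pos (x := x / (x + 1)) (by positivity)
    rw [Real.log_div hx.ne' hx1.ne'] at h3
    have h4 : x / (x + 1) - 1 = -(1 / (x + 1)) := by
      field_simp
      ring
    linarith
  have h3 : s * (1 / (x + 1)) + 1 ≤ Real.exp (s * (Real.log (x + 1) - Real.log x)) := by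
    have h4 := Real.add_one_le_exp (s * (Real.log (x + 1) - Real.log x))
    nlinarith
  have h5 : 0 < (x + 1) ^ (-s) := Real.rpow_pos_of_pos hx1 _
  have h6 : (x + 1) ^ (-1 - s) = (x + 1) ^ (-s) * (1 / (x + 1)) := by
    rw [show -1 - s = -s + (-1) by ring, Real.rpow_add hx1, Real.rpow_neg_one, one_div]
  rw [h6, h1, one_div_mul_eq_div, le_div_iff₀ hs]
  nlinarith

theorem ineq_b {x r : ℝ} (hx : 0 ≤ x) (hr : 0 < r) (hr1 : r ≤ 1) :
    (x + 1) ^ (r - 1) ≤ ((x + 1) ^ r - x ^ r) / r := by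
  have hx1 : 0 < x + 1 := by linarith
  have h1 : x ^ r = (x + 1) ^ r * (1 + -(1 / (x + 1))) ^ r := by
    rw [← Real.mul_rpow hx1.le (by
      have : 1 / (x + 1) ≤ 1 := by
        rw [div_le_one hx1]
        linarith
      linarith)]
    congr 1
    field_simp
    ring
  have h2 : (1 + -(1 / (x + 1))) ^ r ≤ 1 + r * -(1 / (x + 1)) := by
    refine rpow_one_add_le_one_add_mul_self ?_ hr.le hr1
    have : 1 / (x + 1) ≤ 1 := by
      rw [div_le_one hx1]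
      linarith
    linarith
  have h5 : 0 < (x + 1) ^ r := Real.rpow_pos_of_pos hx1 _
  have h6 : (x + 1) ^ (r - 1) = (x + 1) ^ r * (1 / (x + 1)) := by
    rw [sub_eq_add_neg, Real.rpow_add hx1, Real.rpow_neg_one, one_div]
  rw [h6, h1, le_div_iff₀ hr]
  nlinarith

theorem sum_a {s : ℝ} (hs : 0 < s) {m : ℕ} (hm : 1 ≤ m) (N : ℕ) (hN : m ≤ N) :
    ∑ n ∈ Finset.Icc m N, (n : ℝ) ^ (-1 - s) ≤
      (m : ℝ) ^ (-1 - s) + 1 / s * ((m : ℝ) ^ (-s) - (N : ℝ) ^ (-s)) := by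
  induction N, hN using Nat.le_induction with
  | base => simp
  | succ N hN ih =>
    rw [Finset.sum_Icc_succ_top (by omega)]
    have h1 : (0 : ℝ) < N := by
      have : 0 < N := by omega
      exact_mod_cast this
    have h2 := ineq_a h1 hs
    push_cast
    nlinarith

theorem sum_b {r : ℝ} (hr : 0 < r) (hr1 : r ≤ 1) (N : ℕ) :
    ∑ n ∈ Finset.Icc 1 N, (n : ℝ) ^ (r - 1) ≤ (N : ℝ) ^ r / r := by
  induction N with
  | zero =>
    simp [Real.zero_rpow hr.ne']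
  | succ N ih =>
    rw [Finset.sum_Icc_succ_top (by omega)]
    have h2 := ineq_b (Nat.cast_nonneg N : (0 : ℝ) ≤ N) hr hr1
    rw [sub_div] at h2
    push_cast
    linarith

theorem sum_a' {s y : ℝ} (hs : 0 < s) (hy : 1 ≤ y) (S : Finset ℕ) (hS : ∀ n ∈ S, y < n) :
    ∑ n ∈ S, (n : ℝ) ^ (-1 - s) ≤ (1 + 1 / s) * y ^ (-s) := by
  have hy0 : 0 < y := by linarith
  obtain ⟨m, hm⟩ : ∃ m : ℕ, m = ⌊y⌋₊ + 1 := ⟨_, rfl⟩
  have hym : y < m := by
    rw [hm]
    push_cast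
    exact Nat.lt_floor_add_one y
  have hm1 : 1 ≤ m := by omega
  have hsub : S ⊆ Finset.Icc m (max m (S.sup id)) := by
    intro n hn
    rw [Finset.mem_Icc]
    refine ⟨?_, (Finset.le_sup (f := id) hn).trans (le_max_right _ _)⟩
    have h1 := hS n hn
    rw [hm]
    have : ⌊y⌋₊ < n := (Nat.floor_lt hy0.le).2 h1
    omega
  have h1 : ∑ n ∈ S, (n : ℝ) ^ (-1 - s) ≤ ∑ n ∈ Finset.Icc m (max m (S.sup id)), (n : ℝ) ^ (-1 - s) :=
    Finset.sum_le_sum_of_subset_of_nonneg hsub fun n _ _ => Real.rpow_nonneg (Nat.cast_nonneg n) _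
  refine h1.trans ((sum_a hs hm1 _ (le_max_left _ _)).trans ?_)
  have h2 : (m : ℝ) ^ (-s) ≤ y ^ (-s) :=
    Real.rpow_le_rpow_of_nonpos hy0 hym.le (by linarith)
  have h3 : (m : ℝ) ^ (-1 - s) ≤ (m : ℝ) ^ (-s) :=
    Real.rpow_le_rpow_of_exponent_le (by exact_mod_cast hm1) (by linarith)
  have h4 : 0 ≤ ((max m (S.sup id) : ℕ) : ℝ) ^ (-s) := Real.rpow_nonneg (Nat.cast_nonneg _) _
  have h5 : 0 < 1 / s := by positivity
  have h6 : 1 / s * ((m : ℝ) ^ (-s) - ((max m (S.sup id) : ℕ) : ℝ) ^ (-s)) ≤ 1 / s * y ^ (-s) :=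
    mul_le_mul_of_nonneg_left (by linarith) h5.le
  linarith

theorem sum_b' {r y : ℝ} (hr : 0 < r) (hr1 : r ≤ 1) (hy : 1 ≤ y) (S : Finset ℕ)
    (hS : ∀ n ∈ S, 1 ≤ n ∧ (n : ℝ) ≤ y) : ∑ n ∈ S, (n : ℝ) ^ (r - 1) ≤ y ^ r / r := by
  have hy0 : 0 < y := by linarith
  have hsub : S ⊆ Finset.Icc 1 ⌊y⌋₊ := by
    intro n hn
    rw [Finset.mem_Icc]
    exact ⟨(hS n hn).1, Nat.le_floor (hS n hn).2⟩
  refine (Finset.sum_le_sum_of_subset_of_nonneg hsub fun n _ _ =>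
    Real.rpow_nonneg (Nat.cast_nonneg n) _).trans ((sum_b hr hr1 _).trans ?_)
  exact div_le_div_of_nonneg_right
    (Real.rpow_le_rpow (Nat.cast_nonneg _) (Nat.floor_le hy0.le) hr.le) hr.le

theorem term {k : ℕ} {κ C : ℝ} {F : ℂ → ℂ} {a : ℕ → ℂ} (D : DatK k κ C F a) {l δ : ℝ}
    (hl : 1 ≤ l) (hδ : 0 < δ) (hδ1 : δ ≤ 1) {p : ℕ} (hp : p ∈ Pl l) :
    ‖((cc l δ p : ℝ) : ℂ) * al a p‖ ≤ C * k * (1 + Dd l δ) * (p : ℝ) ^ (-(1 / 2) - κ) := by
  have hpp : p.Prime := (Pool.Agent.N964.MX.mem_Pl.1 hp).2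
  have hp0 : (0 : ℝ) < p := by exact_mod_cast hpp.pos
  obtain ⟨h1, h2⟩ := D.ccb l δ hl hδ hδ1 p hp
  have h3 := D.ala p hpp
  rw [norm_mul, Complex.norm_real, Real.norm_eq_abs, abs_of_nonneg h1]
  have h4 : C * (1 + Dd l δ) / Real.sqrt p * (k * (p : ℝ) ^ (-κ)) =
      C * k * (1 + Dd l δ) * (p : ℝ) ^ (-(1 / 2) - κ) := by
    rw [Real.sqrt_eq_rpow, sub_eq_add_neg, Real.rpow_add hp0, Real.rpow_neg hp0.le (1 / 2)]
    field_simp
  rw [← h4]
  exact mul_le_mul h2 h3 (norm_nonneg _) (h1.trans h2)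

theorem var : S_var := by
  intro k κ C F a D
  have hC : 0 < C := by linarith [D.pos]
  have hk : (0 : ℝ) < k := by exact_mod_cast D.hk
  have hκ := D.hκ0
  have hκ1 : 0 < 1 / 2 - κ := by linarith [D.hκ1]
  obtain ⟨B1, hB1⟩ : ∃ B1 : ℝ, B1 = (C * k) ^ 2 * (1 + 1 / (2 * κ)) := ⟨_, rfl⟩
  obtain ⟨B2, hB2⟩ : ∃ B2 : ℝ, B2 = C * k / (1 / 2 - κ) := ⟨_, rfl⟩
  have p1 : 0 < B1 := by
    rw [hB1]
    positivity
  have p2 : 0 < B2 := by
    rw [hB2]
    positivity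
  have p3 : 0 < C * k := by positivity
  refine ⟨B1 + B2 + 2 * (C * k) + 1, by linarith, ?_⟩
  intro l δ y t hl hδ hδ1 hy
  have hy0 : 0 < y := by linarith
  have hDd : 0 ≤ Dd l δ := by
    unfold Dd
    refine Real.log_nonneg ?_
    have : 0 < 1 / (l * δ) := by
      have : 0 < l * δ := by
        have : 0 < l := by linarith
        positivity
      positivity
    linarith
  obtain ⟨G, hG⟩ : ∃ G : ℝ, G = 1 + Dd l δ := ⟨_, rfl⟩
  have hG1 : 1 ≤ G := by linarith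
  have hterm : ∀ p ∈ Pl l, ‖((cc l δ p : ℝ) : ℂ) * al a p‖ ≤ C * k * G * (p : ℝ) ^ (-(1 / 2) - κ) := by
    intro p hp
    rw [hG]
    exact term D hl hδ hδ1 hp
  have hnorm : ∀ p ∈ Pl l, ‖(((cc l δ p : ℝ) : ℂ) * al a p) * (p : ℂ) ^ (-(t : ℂ) * I)‖ ≤
      C * k * G * (p : ℝ) ^ (-(1 / 2) - κ) := by
    intro p hp
    have hpp : p.Prime := (Pool.Agent.N964.MX.mem_Pl.1 hp).2
    rw [norm_mul, Pool.Agent.N964.MX.norm_ppow hpp.ne_zero, mul_one]
    exact hterm p hp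
  rw [← hG]
  have hCG : 0 < C * k * G := by positivity
  refine ⟨?_, ?_, ?_⟩
  · have h1 : ∀ p ∈ (Pl l).filter (fun p : ℕ => y < p), ‖((cc l δ p : ℝ) : ℂ) * al a p‖ ^ 2 ≤
        (C * k * G) ^ 2 * (p : ℝ) ^ (-1 - 2 * κ) := by
      intro p hp
      have hp' := (Finset.mem_filter.1 hp).1
      have hp0 : (0 : ℝ) < p := by
        exact_mod_cast (Pool.Agent.N964.MX.mem_Pl.1 hp').2.pos
      have h2 := pow_le_pow_left₀ (norm_nonneg _) (hterm p hp') 2
      refine h2.trans (le_of_eq ?_)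
      rw [mul_pow, ← Real.rpow_natCast ((p : ℝ) ^ (-(1 / 2) - κ)) 2, ← Real.rpow_mul hp0.le]
      congr 2
      push_cast
      ring
    refine (Finset.sum_le_sum h1).trans ?_
    rw [← Finset.mul_sum]
    have h2 := sum_a' (s := 2 * κ) (by linarith) hy ((Pl l).filter (fun p : ℕ => y < p))
      (fun n hn => (Finset.mem_filter.1 hn).2)
    have h3 : (C * k * G) ^ 2 * ∑ n ∈ (Pl l).filter (fun p : ℕ => y < p), (n : ℝ) ^ (-1 - 2 * κ) ≤
        (C * k * G) ^ 2 * ((1 + 1 / (2 * κ)) * y ^ (-(2 * κ))) :=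
      mul_le_mul_of_nonneg_left h2 (sq_nonneg _)
    refine h3.trans ?_
    have h4 : (C * k * G) ^ 2 * ((1 + 1 / (2 * κ)) * y ^ (-(2 * κ))) =
        B1 * G ^ 2 * y ^ (-(2 * κ)) := by
      rw [hB1]
      ring
    rw [h4]
    have h5 : 0 ≤ y ^ (-(2 * κ)) := Real.rpow_nonneg hy0.le _
    refine mul_le_mul_of_nonneg_right (mul_le_mul_of_nonneg_right ?_ (sq_nonneg _)) h5
    linarith
  · have h1 : PA a l δ t = PLy a l δ y t +
        ∑ p ∈ (Pl l).filter (fun p : ℕ => ¬ y < p),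
          (((cc l δ p : ℝ) : ℂ) * al a p) * (p : ℂ) ^ (-(t : ℂ) * I) := by
      unfold PA PLy
      rw [Finset.sum_filter_add_sum_filter_not]
    rw [h1]
    refine (norm_add_le _ _).trans (add_le_add_right ?_ _)
    have h2 : ∀ p ∈ (Pl l).filter (fun p : ℕ => ¬ y < p),
        ‖(((cc l δ p : ℝ) : ℂ) * al a p) * (p : ℂ) ^ (-(t : ℂ) * I)‖ ≤
          C * k * G * (p : ℝ) ^ ((1 / 2 - κ) - 1) := by
      intro p hp
      refine (hnorm p (Finset.mem_filter.1 hp).1).trans (le_of_eq ?_)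
      congr 2
      ring
    refine (norm_sum_le_of_le _ h2).trans ?_
    rw [← Finset.mul_sum]
    have h3 := sum_b' (r := 1 / 2 - κ) hκ1 (by linarith) hy ((Pl l).filter (fun p : ℕ => ¬ y < p))
      (fun n hn => ⟨(Pool.Agent.N964.MX.mem_Pl.1 (Finset.mem_filter.1 hn).1).2.one_lt.le,
        not_lt.1 (Finset.mem_filter.1 hn).2⟩)
    have h4 := mul_le_mul_of_nonneg_left h3 hCG.le
    refine h4.trans ?_
    have h5 : C * k * G * (y ^ (1 / 2 - κ) / (1 / 2 - κ)) = B2 * G * y ^ (1 / 2 - κ) := by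
      rw [hB2]
      ring
    rw [h5]
    have h6 : 0 ≤ y ^ (1 / 2 - κ) := Real.rpow_nonneg hy0.le _
    refine mul_le_mul_of_nonneg_right (mul_le_mul_of_nonneg_right ?_ (by linarith)) h6
    linarith
  · unfold PLy
    have h2 : ∀ p ∈ (Pl l).filter (fun p : ℕ => y < p),
        ‖(((cc l δ p : ℝ) : ℂ) * al a p) * (p : ℂ) ^ (-(t : ℂ) * I)‖ ≤ C * k * G := by
      intro p hp
      have hp' := (Finset.mem_filter.1 hp).1
      have hp1 : (1 : ℝ) ≤ p := by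
        exact_mod_cast (Pool.Agent.N964.MX.mem_Pl.1 hp').2.one_lt.le
      refine (hnorm p hp').trans ?_
      have h3 : (p : ℝ) ^ (-(1 / 2) - κ) ≤ 1 :=
        Real.rpow_le_one_of_one_le_of_nonpos hp1 (by linarith)
      nlinarith
    refine (norm_sum_le_of_le _ h2).trans ?_
    rw [Finset.sum_const, nsmul_eq_mul]
    have h3 : (((Pl l).filter (fun p : ℕ => y < p)).card : ℝ) ≤ 2 * Real.exp l := by
      have h4 : ((Pl l).filter (fun p : ℕ => y < p)).card ≤ ⌊Real.exp l⌋₊ + 1 := by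
        refine (Finset.card_filter_le _ _).trans ?_
        unfold Pl
        refine (Finset.card_filter_le _ _).trans ?_
        rw [Finset.card_range]
      have h5 : (⌊Real.exp l⌋₊ : ℝ) ≤ Real.exp l := Nat.floor_le (Real.exp_pos l).le
      have h6 : 1 ≤ Real.exp l := Real.one_le_exp (by linarith)
      have h7 : (((Pl l).filter (fun p : ℕ => y < p)).card : ℝ) ≤ ((⌊Real.exp l⌋₊ + 1 : ℕ) : ℝ) := by
        exact_mod_cast h4
      push_cast at h7
      linarith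
    have h8 := mul_le_mul_of_nonneg_right h3 hCG.le
    refine h8.trans ?_
    have h9 : 2 * Real.exp l * (C * k * G) = 2 * (C * k) * G * Real.exp l := by ring
    rw [h9]
    refine mul_le_mul_of_nonneg_right (mul_le_mul_of_nonneg_right ?_ (by linarith))
      (Real.exp_pos l).le
    linarith

end Pool.Agent.N279.GV
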